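import Pool.Agent.Work.MP_d76268_co.Final

/-!
# MP_d76268_co: the bioriented path on four vertices is δ⁺-maderian

Every finite digraph (no loops, no parallel arcs, digons allowed) with minimum out-degree at least
`32` contains a subdivision of the bioriented path on four vertices.
-/

namespace Pool.Agent.Results.MP_d76268_co.BiorientedP4

universe u v

/-- The data of a subdivision of `F` inside `D`: every vertex `a` of `F` is represented by a
vertex `branch a` of `D`, different vertices by different ones, and every arc `(a, b)` of `F` is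
replaced by a directed path of `D` from `branch a` to `branch b` with interior vertices
`inner a b`; these paths are internally disjoint and have no interior vertex among the
vertices `branch c`. -/
structure SubdivisionIn {W : Type v} {V : Type u} (F : Digraph W) (D : Digraph V) where
  /-- the vertices of `D` that represent the vertices of `F` -/
  branch : W → V
  /-- the list of the interior vertices of the path that replaces an arc of `F` -/
  inner : W → W → List V
  branch_injective : Function.Injective branch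
  path : ∀ a b, F.Adj a b → List.IsChain D.Adj (branch a :: (inner a b ++ [branch b]))
  nodup : ∀ a b, F.Adj a b → (inner a b).Nodup
  avoid : ∀ a b, F.Adj a b → ∀ c, branch c ∉ inner a b
  disjoint : ∀ a b, F.Adj a b → ∀ a' b', F.Adj a' b' → (a, b) ≠ (a', b') →
    List.Disjoint (inner a b) (inner a' b')

/-- Every finite digraph `D` (with at least one vertex and without loops) with minimum
out-degree at least `k` contains a subdivision of `F`. -/
def Forces {W : Type v} (F : Digraph W) (k : ℕ) : Prop :=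
  ∀ (V : Type u) [Finite V] [Nonempty V] (D : Digraph V), (∀ x, ¬ D.Adj x x) →
    (∀ x, k ≤ {y | D.Adj x y}.ncard) → Nonempty (SubdivisionIn F D)

/-- The biorientation of a graph: both arcs `(a, b)` and `(b, a)` for every edge `ab`. -/
def biorientation {W : Type v} (G : SimpleGraph W) : Digraph W := ⟨G.Adj⟩

/-- From three cycles `C1`, `C0`, `C2` (an embedding of the pattern `patP4`) to a subdivision of
the bioriented path on four vertices. -/
theorem subdivision_of_emb {V : Type u} (D : Digraph V) (hD : ∀ x, ¬ D.Adj x x)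
    (φ : BiP4.Emb D.Adj BiP4.patP4) :
    Nonempty (SubdivisionIn (biorientation (SimpleGraph.pathGraph 4)) D) := by
  have hm : BiP4.patP4.m = 4 := by decide
  have hn : BiP4.patP4.n = 2 := by decide
  have s0 : BiP4.Seg D.Adj (φ.β 0) (φ.π 0) (φ.β 0) := φ.seg 0 (by decide)
  have s1 : BiP4.Seg D.Adj (φ.β 0) (φ.π 1) (φ.β 1) := φ.seg 1 (by decide)
  have s2 : BiP4.Seg D.Adj (φ.β 1) (φ.π 2) (φ.β 0) := φ.seg 2 (by decide)
  have s3 : BiP4.Seg D.Adj (φ.β 1) (φ.π 3) (φ.β 1) := φ.seg 3 (by decide)
  have hbc : φ.β 0 ≠ φ.β 1 := fun h => absurd (φ.inj 0 (by decide) 1 (by decide) h) (by decide)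
  have n0 := φ.nodup 0 (by decide)
  have n1 := φ.nodup 1 (by decide)
  have n2 := φ.nodup 2 (by decide)
  have n3 := φ.nodup 3 (by decide)
  have d01 := φ.disj 0 (by decide) 1 (by decide) (by decide)
  have d02 := φ.disj 0 (by decide) 2 (by decide) (by decide)
  have d03 := φ.disj 0 (by decide) 3 (by decide) (by decide)
  have d12 := φ.disj 1 (by decide) 2 (by decide) (by decide)
  have d13 := φ.disj 1 (by decide) 3 (by decide) (by decide)
  have d23 := φ.disj 2 (by decide) 3 (by decide) (by decide)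
  have a00 := φ.avoid 0 (by decide) 0 (by decide)
  have a01 := φ.avoid 0 (by decide) 1 (by decide)
  have a10 := φ.avoid 1 (by decide) 0 (by decide)
  have a11 := φ.avoid 1 (by decide) 1 (by decide)
  have a20 := φ.avoid 2 (by decide) 0 (by decide)
  have a21 := φ.avoid 2 (by decide) 1 (by decide)
  have a30 := φ.avoid 3 (by decide) 0 (by decide)
  have a31 := φ.avoid 3 (by decide) 1 (by decide)
  revert s0 s1 s2 s3 hbc n0 n1 n2 n3 d01 d02 d03 d12 d13 d23 a00 a01 a10 a11 a20 a21 a30 a31
  generalize φ.β 0 = b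
  generalize φ.β 1 = c
  generalize φ.π 0 = l0
  generalize φ.π 1 = p
  generalize φ.π 2 = q
  generalize φ.π 3 = l3
  intro s0 s1 s2 s3 hbc n0 n1 n2 n3 d01 d02 d03 d12 d13 d23 a00 a01 a10 a11 a20 a21 a30 a31
  cases l0 with
  | nil => exact absurd (BiP4.seg_nil.1 s0) (hD b)
  | cons x l0 =>
  cases l3 with
  | nil => exact absurd (BiP4.seg_nil.1 s3) (hD c)
  | cons y l3 =>
  rw [BiP4.seg_cons] at s0 s3
  have e01 : List.Disjoint l0 p := fun z hz hz' => d01 (List.mem_cons_of_mem _ hz) hz'
  have e02 : List.Disjoint l0 q := fun z hz hz' => d02 (List.mem_cons_of_mem _ hz) hz'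
  have e03 : List.Disjoint l0 l3 := fun z hz hz' =>
    d03 (List.mem_cons_of_mem _ hz) (List.mem_cons_of_mem _ hz')
  have e13 : List.Disjoint p l3 := fun z hz hz' => d13 hz (List.mem_cons_of_mem _ hz')
  have e23 : List.Disjoint q l3 := fun z hz hz' => d23 hz (List.mem_cons_of_mem _ hz')
  have hxy : x ≠ y := by
    rintro rfl
    exact d03 List.mem_cons_self List.mem_cons_self
  have hyl0 : y ∉ l0 := fun h => d03 (List.mem_cons_of_mem _ h) List.mem_cons_self
  have hxl3 : x ∉ l3 := fun h => d03 List.mem_cons_self (List.mem_cons_of_mem _ h)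
  have hxp : x ∉ p := fun h => d01 List.mem_cons_self h
  have hxq : x ∉ q := fun h => d02 List.mem_cons_self h
  have hyp : y ∉ p := fun h => d13 h List.mem_cons_self
  have hyq : y ∉ q := fun h => d23 h List.mem_cons_self
  simp only [List.nodup_cons] at n0 n3
  simp only [List.mem_cons, not_or] at a00 a01 a30 a31
  have key : ∀ a b' : Fin 4, (SimpleGraph.pathGraph 4).Adj a b' →
      (a = 0 ∧ b' = 1) ∨ (a = 1 ∧ b' = 0) ∨ (a = 1 ∧ b' = 2) ∨ (a = 2 ∧ b' = 1) ∨
      (a = 2 ∧ b' = 3) ∨ (a = 3 ∧ b' = 2) := by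
    intro a b' h
    rw [SimpleGraph.pathGraph_adj] at h
    revert h
    revert a b'
    decide
  refine ⟨⟨![x, b, c, y], ![![[], l0, [], []], ![[], [], p, []], ![[], q, [], []],
    ![[], [], l3, []]], ?_, ?_, ?_, ?_, ?_⟩⟩
  · have hxb : x ≠ b := Ne.symm a00.1
    have hxc : x ≠ c := Ne.symm a01.1
    have hby : b ≠ y := a30.1
    have hcy : c ≠ y := a31.1
    intro i j hij
    fin_cases i <;> fin_cases j <;> first
      | rfl
      | (exfalso
         revert hij
         simp [hxb, hxb.symm, hxc, hxc.symm, hby, hby.symm, hcy, hcy.symm, hbc, hbc.symm,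
           hxy, hxy.symm])
  · intro a b' hab
    rcases key a b' hab with ⟨rfl, rfl⟩ | ⟨rfl, rfl⟩ | ⟨rfl, rfl⟩ | ⟨rfl, rfl⟩ | ⟨rfl, rfl⟩ | ⟨rfl, rfl⟩
    · exact s0.2
    · exact BiP4.seg_nil.2 s0.1
    · exact s1
    · exact s2
    · exact BiP4.seg_nil.2 s3.1
    · exact s3.2
  · intro a b' hab
    rcases key a b' hab with ⟨rfl, rfl⟩ | ⟨rfl, rfl⟩ | ⟨rfl, rfl⟩ | ⟨rfl, rfl⟩ | ⟨rfl, rfl⟩ | ⟨rfl, rfl⟩
    · exact n0.2
    · exact List.nodup_nil
    · exact n1
    · exact n2
    · exact List.nodup_nil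
    · exact n3.2
  · intro a b' hab z
    rcases key a b' hab with ⟨rfl, rfl⟩ | ⟨rfl, rfl⟩ | ⟨rfl, rfl⟩ | ⟨rfl, rfl⟩ | ⟨rfl, rfl⟩ | ⟨rfl, rfl⟩ <;>
      fin_cases z <;> simp [n0.1, n3.1, a00.2, a01.2, a30.2, a31.2, a10, a11, a20, a21, hyl0, hxl3, hxp, hxq, hyp, hyq]
  · intro a b' hab a' b'' hab' hne
    rcases key a b' hab with ⟨rfl, rfl⟩ | ⟨rfl, rfl⟩ | ⟨rfl, rfl⟩ | ⟨rfl, rfl⟩ | ⟨rfl, rfl⟩ | ⟨rfl, rfl⟩ <;>
    rcases key a' b'' hab' with ⟨rfl, rfl⟩ | ⟨rfl, rfl⟩ | ⟨rfl, rfl⟩ | ⟨rfl, rfl⟩ | ⟨rfl, rfl⟩ | ⟨rfl, rfl⟩ <;>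
    first
      | exact absurd rfl hne
      | exact List.disjoint_nil_left _
      | exact List.disjoint_nil_right _
      | exact e01
      | exact e01.symm
      | exact e02
      | exact e02.symm
      | exact e03
      | exact e03.symm
      | exact d12
      | exact d12.symm
      | exact e13
      | exact e13.symm
      | exact e23
      | exact e23.symm

/-- **The bioriented path on four vertices is δ⁺-maderian**, with constant at most `32`. -/
theorem result : ∃ k ≤ 32, Forces.{u} (biorientation (SimpleGraph.pathGraph 4)) k := by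
  refine ⟨32, le_rfl, ?_⟩
  intro V _ _ D hD hout
  obtain ⟨φ⟩ := BiP4.allDigraphs V D.Adj hD hout
  exact subdivision_of_emb D hD φ

end Pool.Agent.Results.MP_d76268_co.BiorientedP4
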